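import Mathlib
import Pool.Agent.Y263.GF.Alg

/-!
The product of the algebras of bounded holomorphic functions on a sequence of balls, and the
corona theorem for the subalgebra generated by the functions with affine fibres and one arbitrary
sequence of functions.
-/

set_option autoImplicit false
set_option linter.unusedSectionVars false

open Metric Set Filter Topology Complex
open scoped ENNReal

namespace Pool.Agent.Q67.CorAlg

open Pool.Agent.Y263.LF Pool.Agent.Y263.GF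

variable {X : ℕ → Type} [∀ m, NormedAddCommGroup (X m)] [∀ m, InnerProductSpace ℂ (X m)]
  [∀ m, FiniteDimensional ℂ (X m)]

instance Hb_normOne (Y : Type) [NormedAddCommGroup Y] [NormedSpace ℂ Y] :
    NormOneClass (Hb Y) where
  norm_one := by
    have : Nonempty (ball (0 : Y) 1) := ⟨⟨0, mem_ball_self one_pos⟩⟩
    change ‖(1 : BoundedContinuousFunction (ball (0 : Y) 1) ℂ)‖ = 1
    exact norm_one

variable (X) in
/-- the bounded sequences of bounded holomorphic functions -/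
abbrev PA : Type := lp (fun m => Hb (X m)) ∞

/-- the projection -/
noncomputable def prA (m : ℕ) : PA X →ₐ[ℂ] Hb (X m) where
  toFun a := a m
  map_one' := rfl
  map_mul' _ _ := rfl
  map_zero' := rfl
  map_add' _ _ := rfl
  commutes' _ := rfl

theorem prA_apply (m : ℕ) (a : PA X) : prA (X := X) m a = a m := rfl

/-- the points of all balls -/
abbrev PS (X : ℕ → Type) [∀ m, NormedAddCommGroup (X m)] : Type :=
  Σ m : ℕ, ball (0 : X m) 1

/-- the evaluations -/
noncomputable def evA (s : PS X) : PA X →ₐ[ℂ] ℂ := (evH s.2).comp (prA s.1)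

theorem evA_apply (s : PS X) (a : PA X) : evA s a = evH s.2 (a s.1) := rfl

theorem evA_le (s : PS X) (a : PA X) : ‖evA s a‖ ≤ ‖a‖ :=
  (evH_le _ _).trans (lp.norm_apply_le_norm ENNReal.top_ne_zero a s.1)

theorem PA_ext {a b : PA X} (h : ∀ s, evA (X := X) s a = evA (X := X) s b) : a = b := by
  refine lp.ext (funext fun m => ?_)
  exact Hb_ext (fun z => h ⟨m, z⟩)

theorem mkH_norm {Y : Type} [NormedAddCommGroup Y] [NormedSpace ℂ Y] (F : Y → ℂ)
    (hF : DifferentiableOn ℂ F (ball 0 1)) (C : ℝ) (hC : ∀ z ∈ ball (0 : Y) 1, ‖F z‖ ≤ C) :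
    ‖mkH F hF C hC‖ ≤ C := by
  have h0 : 0 ≤ C := (norm_nonneg _).trans (hC 0 (mem_ball_self one_pos))
  change ‖(mkH F hF C hC : BoundedContinuousFunction (ball (0 : Y) 1) ℂ)‖ ≤ C
  rw [BoundedContinuousFunction.norm_le h0]
  intro z
  exact hC z z.2

/-- a bounded sequence of functions as an element of the product -/
noncomputable def mkA (F : ∀ m, X m → ℂ) (hF : ∀ m, DifferentiableOn ℂ (F m) (ball 0 1)) (C : ℝ)
    (hC : ∀ m, ∀ z ∈ ball (0 : X m) 1, ‖F m z‖ ≤ C) : PA X :=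
  ⟨fun m => mkH (F m) (hF m) C (hC m), memℓp_infty ⟨C, by
    rintro _ ⟨m, rfl⟩
    exact mkH_norm _ _ _ _⟩⟩

theorem evA_mkA (F : ∀ m, X m → ℂ) (hF : ∀ m, DifferentiableOn ℂ (F m) (ball 0 1)) (C : ℝ)
    (hC : ∀ m, ∀ z ∈ ball (0 : X m) 1, ‖F m z‖ ≤ C) (s : PS X) :
    evA s (mkA F hF C hC) = F s.1 s.2 := rfl

/-- the sequences of functions of maps with affine fibres -/
def RA (X : ℕ → Type) [∀ m, NormedAddCommGroup (X m)] [∀ m, InnerProductSpace ℂ (X m)]
    [∀ m, FiniteDimensional ℂ (X m)] : Set (PA X) :=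
  {a | ∃ C : ℝ, ∀ m, ∃ (f : ℂ → ℂ) (ψ : X m → ℂ), DifferentiableOn ℂ f (ball 0 1) ∧
    (∀ w ∈ ball (0 : ℂ) 1, ‖f w‖ ≤ C) ∧ AD ψ ∧ ∀ z : ball (0 : X m) 1, evH z (a m) = f (ψ z)}

/-- the representing function of an element of `Hb` -/
theorem Hb_rep {Y : Type} [NormedAddCommGroup Y] [NormedSpace ℂ Y] (a : Hb Y) :
    ∃ F : Y → ℂ, DifferentiableOn ℂ F (ball 0 1) ∧ ∀ z : ball (0 : Y) 1, evH z a = F z := a.2

/-- **The corona theorem for the product.** -/
theorem prod_main (G : PA X) {N : ℕ} (F : Fin N → PA X)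
    (hF : ∀ i, F i ∈ (Algebra.adjoin ℂ (insert G (RA X))).topologicalClosure)
    {δ : ℝ} (hδ : 0 < δ) (hlow : ∀ s : PS X, δ ≤ ∑ i, ‖evA s (F i)‖) :
    ∃ g : Fin N → PA X, ∑ i, F i * g i = 1 := by
  classical
  refine char_main (A := PA X) (S := PS X) (evA (X := X)) (evA_le (X := X)) (RA X) G ?_ F hF hδ hlow
  intro t ht c c0 δ' hδ' hlow'
  choose! Ct hCt using ht
  set e := t.equivFin.symm with he
  -- the common bound
  set R : ℝ := ‖G‖ + ‖c0‖ + ∑ j : Fin t.card, (|Ct (e j)| + ‖c (e j)‖) + 1 with hR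
  have hsn : 0 ≤ ∑ j : Fin t.card, (|Ct (e j)| + ‖c (e j)‖) :=
    Finset.sum_nonneg (fun _ _ => by positivity)
  have hR0 : 0 < R := by positivity
  obtain ⟨C, hC, H⟩ := tuple_cor t.card hδ' hR0
  have hpiece : ∀ m : ℕ, ∃ (g : Fin t.card → X m → ℂ) (g0 : X m → ℂ),
      (∀ k, DifferentiableOn ℂ (g k) (ball 0 1)) ∧ DifferentiableOn ℂ g0 (ball 0 1) ∧
      (∀ k, ∀ z ∈ ball (0 : X m) 1, ‖g k z‖ ≤ C) ∧ (∀ z ∈ ball (0 : X m) 1, ‖g0 z‖ ≤ C) ∧
      ∀ z : ball (0 : X m) 1, ∑ k : Fin t.card, (evH z ((e k : PA X) m) - c (e k)) * g k z +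
        (evH z (G m) - c0) * g0 z = 1 := by
    intro m
    have hk : ∀ k : Fin t.card, ∃ (f : ℂ → ℂ) (ψ : X m → ℂ), DifferentiableOn ℂ f (ball 0 1) ∧
        (∀ w ∈ ball (0 : ℂ) 1, ‖f w‖ ≤ Ct (e k)) ∧ AD ψ ∧
        ∀ z : ball (0 : X m) 1, evH z ((e k : PA X) m) = f (ψ z) := fun k => hCt (e k) (e k).2 m
    choose f ψ hf hfb hψ hfψ using hk
    obtain ⟨G', hG', hG'2⟩ := Hb_rep (G m)
    obtain ⟨g, g0, h1, h2, h3, h4, h5⟩ := H (X m) ψ (fun k w => f k w - c (e k)) hψ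
      (fun k => (hf k).sub_const _)
      (fun k w hw => by
        refine (norm_sub_le _ _).trans ?_
        have h1 := hfb k w hw
        have h2 := Finset.single_le_sum (f := fun j : Fin t.card => |Ct (e j)| + ‖c (e j)‖)
          (fun _ _ => by positivity) (Finset.mem_univ k)
        have h3 := le_abs_self (Ct (e k))
        have h4 := norm_nonneg G
        have h5 := norm_nonneg c0
        linarith)
      (fun z => G' z - c0) (hG'.sub_const _)
      (fun z hz => by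
        refine (norm_sub_le _ _).trans ?_
        have h1 := evA_le (X := X) ⟨m, ⟨z, hz⟩⟩ G
        have h2 : evA (X := X) ⟨m, ⟨z, hz⟩⟩ G = G' z := hG'2 ⟨z, hz⟩
        rw [h2] at h1
        linarith)
      (fun z hz => by
        have h1 := hlow' ⟨m, ⟨z, hz⟩⟩
        have h2 : evA (X := X) ⟨m, ⟨z, hz⟩⟩ G = G' z := hG'2 ⟨z, hz⟩
        have h3 : (∑ a ∈ t, ‖evA (X := X) ⟨m, ⟨z, hz⟩⟩ a - c a‖ : ℝ) =
            ∑ j : Fin t.card, ‖f j (ψ j z) - c (e j)‖ := by
          rw [← Finset.sum_coe_sort t, ← Equiv.sum_comp e]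
          refine Finset.sum_congr rfl (fun j _ => ?_)
          rw [← hfψ j ⟨z, hz⟩]
          rfl
        rw [h3, h2] at h1
        exact h1)
    refine ⟨g, g0, h1, h2, h3, h4, fun z => ?_⟩
    have h6 := h5 z z.2
    rw [← h6]
    congr 1
    · refine Finset.sum_congr rfl (fun k _ => ?_)
      rw [hfψ k z]
    · rw [hG'2 z]
  choose g g0 h1 h2 h3 h4 h5 using hpiece
  refine ⟨fun a => if ha : a ∈ t then mkA (fun m => g m (e.symm ⟨a, ha⟩)) (fun m => h1 m _) C
    (fun m => h3 m _) else 0, mkA g0 h2 C h4, ?_⟩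
  refine PA_ext (fun s => ?_)
  rw [map_add, map_sum, map_mul, map_sub, map_one, AlgHom.commutes, evA_mkA]
  have h6 := h5 s.1 s.2
  rw [← h6]
  congr 1
  rw [← Finset.sum_coe_sort t, ← Equiv.sum_comp e]
  refine Finset.sum_congr rfl (fun j _ => ?_)
  beta_reduce
  rw [map_mul, map_sub, AlgHom.commutes, dif_pos (e j).2, evA_mkA]
  have h7 : e.symm ⟨(e j : PA X), (e j).2⟩ = j := by simp
  rw [h7]
  rfl

end Pool.Agent.Q67.CorAlg
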