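import Mathlib
import Pool.Agent.Q67.CorAlg.Prod

/-!
The corona theorem with uniform constants for the closed algebra generated by the functions with
affine fibres and one arbitrary function.
-/

set_option autoImplicit false
set_option linter.unusedSectionVars false

open Metric Set Filter Topology Complex
open scoped ENNReal

namespace Pool.Agent.Q67.CorAlg

open Pool.Agent.Y263.LF Pool.Agent.Y263.GF

abbrev V (n : ℕ) := EuclideanSpace ℂ (Fin n)

/-- the values of the generators at a point -/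
def vals {n K : ℕ} (ψ : Fin K → V n → ℂ) (f : Fin K → ℂ → ℂ) (G : V n → ℂ) (z : V n) :
    Option (Fin K) → ℂ
  | none => G z
  | some k => f k (ψ k z)

theorem zero_AD {Y : Type} [NormedAddCommGroup Y] [InnerProductSpace ℂ Y] :
    AD (fun _ : Y => (0 : ℂ)) := by
  refine ⟨⟨differentiableOn_const _, fun z _ z' _ => ?_⟩, fun z _ => by simp⟩
  simp

section

variable {σ : Type} [Fintype σ]

/-- the exponents -/
noncomputable def expo (σ : Type) [Fintype σ] (d : ℕ) : Finset (σ →₀ ℕ) := by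
  classical exact Finset.Icc 0 (Finsupp.equivFunOnFinite.symm (fun _ => d))

theorem mem_expo {d : ℕ} {a : σ →₀ ℕ} (h : ∀ i, a i ≤ d) : a ∈ expo σ d := by
  classical
  rw [expo, Finset.mem_Icc]
  exact ⟨zero_le, fun i => by simpa using h i⟩

theorem eval_expo {d : ℕ} (P : MvPolynomial σ ℂ) (hP : P.totalDegree ≤ d) (v : σ → ℂ) :
    MvPolynomial.eval v P = ∑ a ∈ expo σ d, P.coeff a * ∏ i, v i ^ a i := by
  rw [MvPolynomial.eval_eq']
  refine Finset.sum_subset (fun a ha => mem_expo (fun i => ?_)) (fun a _ ha => ?_)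
  · have h1 := MvPolynomial.le_totalDegree ha
    have h2 : a i ≤ a.sum fun _ e => e := by
      by_cases hi : i ∈ a.support
      · exact Finset.single_le_sum (f := fun i => a i) (fun _ _ => Nat.zero_le _) hi
      · rw [Finsupp.notMem_support_iff.1 hi]
        exact Nat.zero_le _
    omega
  · rw [MvPolynomial.notMem_support_iff.1 ha, zero_mul]

theorem eval_bound {d : ℕ} {A : ℝ} (P : MvPolynomial σ ℂ)
    (hP : P.totalDegree ≤ d) (hA : ∀ a, ‖P.coeff a‖ ≤ A) (v : σ → ℂ)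
    (hv : ∀ i, ‖v i‖ ≤ 1) : ‖MvPolynomial.eval v P‖ ≤ (expo σ d).card * A := by
  rw [eval_expo P hP]
  refine (norm_sum_le _ _).trans ?_
  rw [← nsmul_eq_mul]
  refine Finset.sum_le_card_nsmul _ _ _ (fun a _ => ?_)
  rw [norm_mul, norm_prod]
  have h1 : ∏ i, ‖v i ^ a i‖ ≤ 1 := by
    refine Finset.prod_le_one (fun _ _ => norm_nonneg _) (fun i _ => ?_)
    rw [norm_pow]
    exact pow_le_one₀ (norm_nonneg _) (hv i)
  calc ‖P.coeff a‖ * ∏ i, ‖v i ^ a i‖ ≤ A * 1 := by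
        gcongr
        · exact (norm_nonneg _).trans (hA 0)
        · exact hA a
    _ = A := mul_one A

end

/-- The hypotheses on the generators. -/
structure Gens {n K : ℕ} (ψ : Fin K → V n → ℂ) (f : Fin K → ℂ → ℂ) (G : V n → ℂ) :
    Prop where
  ad : ∀ k, AD (ψ k)
  fd : ∀ k, DifferentiableOn ℂ (f k) (ball 0 1)
  fb : ∀ k, ∀ w ∈ ball (0 : ℂ) 1, ‖f k w‖ ≤ 1
  gd : DifferentiableOn ℂ G (ball 0 1)
  gb : ∀ z ∈ ball (0 : V n) 1, ‖G z‖ ≤ 1

theorem Gens.vb {n K : ℕ} {ψ : Fin K → V n → ℂ} {f : Fin K → ℂ → ℂ} {G : V n → ℂ}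
    (h : Gens ψ f G) {z : V n} (hz : z ∈ ball (0 : V n) 1) (i) : ‖vals ψ f G z i‖ ≤ 1 := by
  match i with
  | none => exact h.gb z hz
  | some q => exact h.fb _ _ (mem_ball_zero_iff.2 ((h.ad q).2 z hz))

theorem Gens.vd {n K : ℕ} {ψ : Fin K → V n → ℂ} {f : Fin K → ℂ → ℂ} {G : V n → ℂ}
    (h : Gens ψ f G) (i) : DifferentiableOn ℂ (fun z => vals ψ f G z i) (ball 0 1) := by
  match i with
  | none => exact h.gd
  | some q =>
    exact (h.fd q).comp (h.ad q).1.diff (fun z hz => mem_ball_zero_iff.2 ((h.ad q).2 z hz))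

theorem prod_diff {E ι : Type} [NormedAddCommGroup E] [NormedSpace ℂ E] {s : Set E} (t : Finset ι)
    (h : ι → E → ℂ) (hh : ∀ i, DifferentiableOn ℂ (h i) s) :
    DifferentiableOn ℂ (fun z => ∏ i ∈ t, h i z) s := by
  classical
  induction t using Finset.induction_on with
  | empty =>
    simp only [Finset.prod_empty]
    exact differentiableOn_const _
  | insert i t hi ih =>
    simp only [Finset.prod_insert hi]
    exact (hh i).fun_mul ih

theorem Gens.ed {n K : ℕ} {ψ : Fin K → V n → ℂ} {f : Fin K → ℂ → ℂ} {G : V n → ℂ}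
    (h : Gens ψ f G) (P : MvPolynomial (Option (Fin K)) ℂ) :
    DifferentiableOn ℂ (fun z => MvPolynomial.eval (vals ψ f G z) P) (ball 0 1) := by
  simp only [MvPolynomial.eval_eq']
  refine DifferentiableOn.fun_sum (fun a _ => ?_)
  refine DifferentiableOn.const_mul ?_ _
  exact prod_diff _ _ (fun i => (h.vd i).fun_pow _)

/-- `F` is within `ε` of a polynomial of complexity at most `c` in `G` and functions `f ∘ ψ`. -/
def Apx {n : ℕ} (c : ℕ) (ε : ℝ) (G F : V n → ℂ) : Prop :=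
  ∃ (ψ : Fin c → V n → ℂ) (f : Fin c → ℂ → ℂ) (P : MvPolynomial (Option (Fin c)) ℂ),
    (∀ k, AD (ψ k)) ∧
    (∀ k, DifferentiableOn ℂ (f k) (ball 0 1) ∧ ∀ w ∈ ball (0 : ℂ) 1, ‖f k w‖ ≤ 1) ∧
    P.totalDegree ≤ c ∧ (∀ a, ‖P.coeff a‖ ≤ c) ∧
    ∀ z ∈ ball (0 : V n) 1, ‖F z - MvPolynomial.eval (vals ψ f G z) P‖ ≤ ε

/-- **Uniform corona theorem for the closed algebra.** -/
theorem unif (M : ℕ) (c : ℕ → ℕ) {δ : ℝ} (hδ : 0 < δ) : ∃ C : ℝ,
    ∀ (n : ℕ) (G : V n → ℂ) (F : Fin M → V n → ℂ), DifferentiableOn ℂ G (ball 0 1) →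
    (∀ z ∈ ball (0 : V n) 1, ‖G z‖ ≤ 1) → (∀ j, DifferentiableOn ℂ (F j) (ball 0 1)) →
    (∀ (k : ℕ) (j : Fin M), Apx (c k) (1 / ((k : ℝ) + 1)) G (F j)) →
    (∀ z ∈ ball (0 : V n) 1, δ ≤ ∑ j, ‖F j z‖) →
    ∃ g : Fin M → V n → ℂ, (∀ j, DifferentiableOn ℂ (g j) (ball 0 1)) ∧
      (∀ j, ∀ z ∈ ball (0 : V n) 1, ‖g j z‖ ≤ C) ∧
      ∀ z ∈ ball (0 : V n) 1, ∑ j, F j z * g j z = 1 := by
  by_contra hcon
  have hbad : ∀ m : ℕ, ∃ (n : ℕ) (G : V n → ℂ) (F : Fin M → V n → ℂ),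
      DifferentiableOn ℂ G (ball 0 1) ∧ (∀ z ∈ ball (0 : V n) 1, ‖G z‖ ≤ 1) ∧
      (∀ j, DifferentiableOn ℂ (F j) (ball 0 1)) ∧
      (∀ (k : ℕ) (j : Fin M), Apx (c k) (1 / ((k : ℝ) + 1)) G (F j)) ∧
      (∀ z ∈ ball (0 : V n) 1, δ ≤ ∑ j, ‖F j z‖) ∧
      ¬ ∃ g : Fin M → V n → ℂ, (∀ j, DifferentiableOn ℂ (g j) (ball 0 1)) ∧
        (∀ j, ∀ z ∈ ball (0 : V n) 1, ‖g j z‖ ≤ m) ∧
        ∀ z ∈ ball (0 : V n) 1, ∑ j, F j z * g j z = 1 := by
    intro m
    by_contra hm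
    apply hcon
    refine ⟨m, ?_⟩
    intro n G F h1 h2 h3 h4 h5
    by_contra h6
    exact hm ⟨n, G, F, h1, h2, h3, h4, h5, h6⟩
  choose n G F hG hGb hF hapx hlow hno using hbad
  -- the elements of the product
  let Ge : PA (fun m => V (n m)) := mkA (fun m => G m) hG 1 hGb
  choose ψ f P hψ hf hdeg hco hnear using hapx
  have hgen : ∀ m k j, Gens (ψ m k j) (f m k j) (G m) := fun m k j =>
    ⟨hψ m k j, fun i => (hf m k j i).1, fun i => (hf m k j i).2, hG m, hGb m⟩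
  have hevb : ∀ m k j, ∀ z ∈ ball (0 : V (n m)) 1,
      ‖MvPolynomial.eval (vals (ψ m k j) (f m k j) (G m) z) (P m k j)‖ ≤
        (expo (Option (Fin (c k))) (c k)).card * (c k : ℝ) := fun m k j z hz =>
    eval_bound _ (hdeg m k j) (hco m k j) _ (fun i => (hgen m k j).vb hz i)
  have hFb : ∀ m j, ∀ z ∈ ball (0 : V (n m)) 1,
      ‖F m j z‖ ≤ (expo (Option (Fin (c 0))) (c 0)).card * (c 0 : ℝ) + 1 := by
    intro m j z hz
    have h1 := hnear m 0 j z hz
    have h2 := hevb m 0 j z hz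
    have h3 := norm_add_le
      (F m j z - MvPolynomial.eval (vals (ψ m 0 j) (f m 0 j) (G m) z) (P m 0 j))
      (MvPolynomial.eval (vals (ψ m 0 j) (f m 0 j) (G m) z) (P m 0 j))
    rw [sub_add_cancel] at h3
    have h4 : (1 : ℝ) / (((0 : ℕ) : ℝ) + 1) = 1 := by norm_num
    rw [h4] at h1
    linarith
  let Fe : Fin M → PA (fun m => V (n m)) := fun j => mkA (fun m => F m j) (fun m => hF m j) _
    (fun m z hz => hFb m j z hz)
  let Ee : ℕ → Fin M → PA (fun m => V (n m)) := fun k j =>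
    mkA (fun m z => MvPolynomial.eval (vals (ψ m k j) (f m k j) (G m) z) (P m k j))
      (fun m => (hgen m k j).ed _) _ (fun m z hz => hevb m k j z hz)
  have hEmem : ∀ k j, Ee k j ∈ Algebra.adjoin ℂ (insert Ge (RA (fun m => V (n m)))) := by
    intro k j
    let Vl : Option (Fin (c k)) → PA (fun m => V (n m)) := fun i =>
      mkA (fun m z => vals (ψ m k j) (f m k j) (G m) z i) (fun m => (hgen m k j).vd i) 1
        (fun m z hz => (hgen m k j).vb hz i)
    let Co : (Option (Fin (c k)) →₀ ℕ) → PA (fun m => V (n m)) := fun a =>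
      mkA (fun m _ => (P m k j).coeff a) (fun m => differentiableOn_const _) (c k)
        (fun m _ _ => hco m k j a)
    have hEeq : Ee k j = ∑ a ∈ expo (Option (Fin (c k))) (c k), Co a * ∏ i, Vl i ^ a i := by
      refine PA_ext (fun s => ?_)
      rw [map_sum]
      refine Eq.trans (eval_expo (P s.1 k j) (hdeg s.1 k j) _) ?_
      refine Finset.sum_congr rfl (fun a _ => ?_)
      rw [map_mul, map_prod]
      refine congrArg₂ _ rfl (Finset.prod_congr rfl (fun i _ => ?_))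
      rw [map_pow]
      rfl
    have hVmem : ∀ i, Vl i ∈ Algebra.adjoin ℂ (insert Ge (RA (fun m => V (n m)))) := by
      intro i
      match i with
      | none => exact Algebra.subset_adjoin (mem_insert _ _)
      | some q =>
        refine Algebra.subset_adjoin (mem_insert_of_mem _ ?_)
        exact ⟨1, fun m => ⟨f m k j q, ψ m k j q, (hgen m k j).fd _, (hgen m k j).fb _,
          (hgen m k j).ad _, fun z => rfl⟩⟩
    have hCmem : ∀ a, Co a ∈ Algebra.adjoin ℂ (insert Ge (RA (fun m => V (n m)))) := by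
      intro a
      refine Algebra.subset_adjoin (mem_insert_of_mem _ ?_)
      exact ⟨(c k : ℝ), fun m => ⟨fun _ => (P m k j).coeff a, fun _ => 0,
        differentiableOn_const _, fun _ _ => hco m k j a, zero_AD, fun z => rfl⟩⟩
    rw [hEeq]
    refine Subalgebra.sum_mem _ (fun a _ => ?_)
    refine Subalgebra.mul_mem _ (hCmem a) (Subalgebra.prod_mem _ (fun i _ => ?_))
    exact Subalgebra.pow_mem _ (hVmem i) _
  have hdist : ∀ k j, dist (Fe j) (Ee k j) ≤ 1 / ((k : ℝ) + 1) := by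
    intro k j
    rw [dist_eq_norm]
    refine lp.norm_le_of_forall_le (by positivity) (fun m => ?_)
    change ‖((Fe j m - Ee k j m : Hb (V (n m))) :
      BoundedContinuousFunction (ball (0 : V (n m)) 1) ℂ)‖ ≤ _
    rw [BoundedContinuousFunction.norm_le (by positivity)]
    intro z
    exact hnear m k j z z.2
  have hFmem : ∀ j, Fe j ∈
      (Algebra.adjoin ℂ (insert Ge (RA (fun m => V (n m))))).topologicalClosure := by
    intro j
    change Fe j ∈ closure _
    rw [Metric.mem_closure_iff]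
    intro η hη
    obtain ⟨k, hk⟩ := exists_nat_one_div_lt hη
    exact ⟨Ee k j, hEmem k j, (hdist k j).trans_lt hk⟩
  obtain ⟨g, hgs⟩ := prod_main Ge Fe hFmem hδ (fun s => hlow s.1 s.2 s.2.2)
  -- a piece without a solution
  obtain ⟨m, hm⟩ := exists_nat_ge (∑ j, ‖g j‖)
  apply hno m
  have hrep := fun j => Hb_rep (g j m)
  choose g' hg'd hg' using hrep
  refine ⟨g', hg'd, fun j z hz => ?_, fun z hz => ?_⟩
  · have h1 := evA_le (X := fun m => V (n m)) ⟨m, ⟨z, hz⟩⟩ (g j)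
    have h2 : evA (X := fun m => V (n m)) ⟨m, ⟨z, hz⟩⟩ (g j) = g' j z := hg' j ⟨z, hz⟩
    rw [h2] at h1
    have h3 := Finset.single_le_sum (f := fun j => ‖g j‖) (fun _ _ => norm_nonneg _)
      (Finset.mem_univ j)
    exact h1.trans (h3.trans hm)
  · have h1 := congrArg (evA (X := fun m => V (n m)) ⟨m, ⟨z, hz⟩⟩) hgs
    rw [map_one, map_sum] at h1
    rw [← h1]
    refine Finset.sum_congr rfl (fun j _ => ?_)
    rw [map_mul, ← hg' j ⟨z, hz⟩]
    rfl

end Pool.Agent.Q67.CorAlg
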